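import Mathlib
import Pool.Agent.L5helper6.GG.Glue
import Pool.Agent.L5helper6.GG.Sm

/-!
The weak form of the conjecture of Manin over ALL number fields `F` for linear sections `X` of
codimension `k` of the Grassmannians `G(r, N)` of the `r`-dimensional subspaces of `F ^ N`, `r ≥ 3`,
in the Plücker embedding; for example for ALL smooth hyperplane sections of `G(3, 7)`.

* `Tuple r N K`: families `x` of `r` vectors with `N` coordinates.
* `Coeffs r N K`: arrays of coefficients `t`; `form t x` is the value of the corresponding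
  multilinear form and `grad t v x` the vector of its partial derivatives with respect to the
  coordinates of `x v`. `Alternating t`: the form is alternating.
* `Frame x P`: the vectors `x` are a basis of the subspace `P`.
* `OnX T x`: the `k` forms vanish at `x`; this defines `X`.
* `InU T x`: the `r k` vectors `grad (T i) v x` are linearly independent; this defines an open
  subset `U` of `X`.
* `plucker x`: the Plücker coordinates (all maximal minors); `height x`: their (relative) height.
* `RankCondition T`: for all `r - 1` independent complex vectors every nontrivial complex linear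
  combination of the bilinear forms, which one gets from the `k` forms by inserting `r - 2` of the
  `r - 1` vectors, has rank `≥ (r + 1) k`. (For all embeddings of `F`.) For `k = 1`, `r = 3` this
  says that for all `w ≠ 0` the bilinear form `φ(w, y, z)` has rank `≥ 4`.
* `Smooth T`: the Jacobian criterion at all complex points of `X`.
* `points T Y`: the set of the rational points of `U` of height at most `Y`.

The theorem: assume that `T` satisfies the rank condition, or that `X` is ANY smooth hyperplane
section of `G(3, 7)`. Then `U` contains a rational point, and for all `ε > 0` the number of the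
rational points of `U` of height `≤ Y` is finite and `O(Y ^ (N - k + ε))`; here `-K = (N - k) H`, so
that `N - k = a(X, H)`. Moreover the conditions and the height do not depend on the choice of the
basis.
-/

namespace Pool.Agent.Results.MP_18ea5f_nt.LinearSectionsOfGrassmannians

open Function

variable {r N k : ℕ}

/-- Families of `r` vectors with `N` coordinates. -/
abbrev Tuple (r N : ℕ) (K : Type*) : Type _ := Fin r → Fin N → K

/-- Arrays of coefficients. -/
abbrev Coeffs (r N : ℕ) (K : Type*) : Type _ := (Fin r → Fin N) → K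

/-- The value of the form with the coefficients `t`. -/
noncomputable def form {K : Type*} [CommRing K] (t : Coeffs r N K) (x : Tuple r N K) : K :=
  ∑ j : Fin r → Fin N, t j * ∏ v, x v (j v)

/-- The partial derivatives with respect to the coordinates of `x v`. -/
noncomputable def grad {K : Type*} [CommRing K] (t : Coeffs r N K) (v : Fin r)
    (x : Tuple r N K) : Fin N → K :=
  fun l => form t (update x v (Pi.single l 1))

/-- The form is alternating. -/
def Alternating {K : Type*} [CommRing K] (t : Coeffs r N K) : Prop :=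
  ∀ u v : Fin r, u ≠ v → ∀ j : Fin r → Fin N, t (j ∘ Equiv.swap u v) = -t j

/-- The equations of `X`. -/
def OnX {K : Type*} [CommRing K] (T : Fin k → Coeffs r N K) (x : Tuple r N K) : Prop :=
  ∀ i, form (T i) x = 0

/-- The open subset `U`. -/
def InU {K : Type*} [Field K] (T : Fin k → Coeffs r N K) (x : Tuple r N K) : Prop :=
  LinearIndependent K fun p : Fin r × Fin k => grad (T p.2) p.1 x

/-- The rank condition. -/
def RankCondition {F : Type} [Field F] (T : Fin k → Coeffs r N F) : Prop :=
  ∀ (σ : F →+* ℂ) (v : Fin r) (x : Tuple r N ℂ),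
    LinearIndependent ℂ (fun t : {t : Fin r // t ≠ v} => x t.1) →
    ∀ c : {t : Fin r // t ≠ v} → Fin k → ℂ, c ≠ 0 → (r + 1) * k ≤
      (Matrix.of fun l l' : Fin N => ∑ t, ∑ i, c t i *
        form (fun j => σ (T i j)) (update (update x v (Pi.single l' 1)) t.1 (Pi.single l 1))).rank

/-- The Jacobian criterion at all complex points of `X`. -/
def Smooth {F : Type} [Field F] (T : Fin k → Coeffs r N F) : Prop :=
  ∀ (σ : F →+* ℂ) (x : Tuple r N ℂ), LinearIndependent ℂ x → OnX (fun i j => σ (T i j)) x →
    ∀ s : Fin k → ℂ, s ≠ 0 → ∃ v, ∑ i, s i • grad (fun j => σ (T i j)) v x ≠ 0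

/-- `x` is a basis of the subspace. -/
def Frame {F : Type} [Field F] (x : Tuple r N F) (P : Submodule F (Fin N → F)) : Prop :=
  LinearIndependent F x ∧ Submodule.span F (Set.range x) = P

/-- The Plücker coordinates of the subspace with the basis `x`. -/
def plucker {F : Type} [Field F] (x : Tuple r N F) : (Fin r → Fin N) → F :=
  fun p => (Matrix.of fun s l : Fin r => x s (p l)).det

/-- The height. -/
noncomputable def height {F : Type} [Field F] [NumberField F] (x : Tuple r N F) : ℝ :=
  Height.mulHeight (plucker x)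

/-- The rational points of `U` of height at most `Y`. -/
def points {F : Type} [Field F] [NumberField F] (T : Fin k → Coeffs r N F) (Y : ℝ) :
    Set (Submodule F (Fin N → F)) :=
  {P | ∃ x, Frame x P ∧ OnX T x ∧ InU T x ∧ height x ≤ Y}

section

open Pool.Agent.L5helper6

theorem frame_eqf {F : Type} [Field F] [CharZero F] {x x' : Tuple r N F}
    {P : Submodule F (Fin N → F)} (h : Frame x P) (h' : Frame x' P) : GG.Eqf x x' := by
  have hex : ∀ v, ∃ c : Fin r → F, ∑ i, c i • x i = x' v := fun v =>
    (Submodule.mem_span_range_iff_exists_fun F).1 (by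
      rw [h.2, ← h'.2]
      exact Submodule.subset_span ⟨v, rfl⟩)
  choose g hg using hex
  refine ⟨g, ?_, funext fun v => (hg v).symm⟩
  intro h0
  have h1 : (Matrix.of g).transpose.det = 0 := by
    rw [Matrix.det_transpose]
    exact h0
  obtain ⟨c, hc, hc'⟩ := Matrix.exists_mulVec_eq_zero_iff.2 h1
  have h3 := Fintype.linearIndependent_iff.1 h'.1 c (by
    have e : ∀ v, c v • x' v = ∑ i, (c v * g v i) • x i := by
      intro v
      rw [← hg v, Finset.smul_sum]
      exact Finset.sum_congr rfl fun i _ => smul_smul _ _ _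
    rw [Finset.sum_congr rfl fun v _ => e v, Finset.sum_comm]
    refine Finset.sum_eq_zero fun i _ => ?_
    rw [← Finset.sum_smul]
    have h4 : ∑ v, c v * g v i = 0 := by
      have h5 : ((Matrix.of g).transpose.mulVec c) i = 0 := congrFun hc' i
      refine Eq.trans ?_ h5
      unfold Matrix.mulVec dotProduct
      refine Finset.sum_congr rfl fun v _ => ?_
      rw [mul_comm]
      rfl
    rw [h4, zero_smul])
  exact hc (funext h3)

theorem frame_of_eqf {F : Type} [Field F] [CharZero F] {x y : Tuple r N F}
    {P : Submodule F (Fin N → F)} (h : Frame x P) (e : GG.Eqf x y) : Frame y P := by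
  have hle : ∀ {x y : Tuple r N F}, GG.Eqf x y →
      Submodule.span F (Set.range y) ≤ Submodule.span F (Set.range x) := by
    rintro x y ⟨g, -, rfl⟩
    rw [Submodule.span_le]
    rintro _ ⟨v, rfl⟩
    exact Submodule.sum_mem _ fun i _ => Submodule.smul_mem _ _ (Submodule.subset_span ⟨i, rfl⟩)
  have h1 : Submodule.span F (Set.range y) = P := by
    rw [← h.2]
    exact le_antisymm (hle e) (hle (GG.Eqf_symm e))
  refine ⟨?_, h1⟩
  rw [linearIndependent_iff_card_eq_finrank_span]
  have h2 := linearIndependent_iff_card_eq_finrank_span.1 h.1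
  unfold Set.finrank at h2 ⊢
  rw [h1, ← h.2]
  exact h2

theorem rcs {F : Type} [Field F] [NumberField F] (T : Fin k → Coeffs r N F)
    (h : RankCondition T) : GG.RCS T ((r + 1) * k) := by
  intro σ v x hx c hc
  refine (h σ v x hx c hc).trans (le_of_eq ?_)
  congr 1
  ext l l'
  rw [Matrix.sum_apply, Matrix.of_apply]
  refine Finset.sum_congr rfl fun t _ => ?_
  rw [Matrix.sum_apply]
  rfl

end

theorem result {F : Type} [Field F] [NumberField F] {r k N : ℕ} (hr : 3 ≤ r) (hk : 1 ≤ k)
    (hN : r ≤ N) (T : Fin k → Coeffs r N F) (hT : ∀ i, Alternating (T i))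
    (h : RankCondition T ∨ (r = 3 ∧ N = 7 ∧ k = 1 ∧ Smooth T)) :
    (∃ (P : Submodule F (Fin N → F)) (x : Tuple r N F), Frame x P ∧ OnX T x ∧ InU T x) ∧
    (∀ ε : ℝ, 0 < ε → ∃ C : ℝ, ∀ Y : ℝ, 1 ≤ Y → (points T Y).Finite ∧
      ((points T Y).ncard : ℝ) ≤ C * Y ^ ((N : ℝ) - k + ε)) ∧
    ∀ (P : Submodule F (Fin N → F)) (x x' : Tuple r N F), Frame x P → Frame x' P →
      (OnX T x ↔ OnX T x') ∧ (InU T x ↔ InU T x') ∧ height x = height x' := by
  have hRC : L5helper6.GG.RCS T ((r + 1) * k) := by
    rcases h with h | ⟨rfl, rfl, rfl, h⟩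
    · exact rcs T h
    · exact L5helper6.GG.sm37 T hT h
  have hinv : ∀ (P : Submodule F (Fin N → F)) (x x' : Tuple r N F), Frame x P → Frame x' P →
      (OnX T x → OnX T x') ∧ (InU T x → InU T x') := fun P x x' hx hx' =>
    ⟨fun h1 => L5helper6.GG.Inc_frame hT (frame_eqf hx hx') h1,
      fun h1 => L5helper6.GG.GG_frame hT (frame_eqf hx hx') h1⟩
  obtain ⟨⟨x, h1, h2, h3⟩, hdim, hcount⟩ :=
    L5helper6.GG.main (by omega : 2 ≤ r) hk hN T hT hRC
  refine ⟨⟨_, x, ⟨h1, rfl⟩, h2, h3⟩, ?_, ?_⟩
  · intro ε hε
    obtain ⟨C, hC, hC'⟩ := hcount ε hε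
    refine ⟨C, fun Y hY => ?_⟩
    have hex : ∀ P : Submodule F (Fin N → F), ∃ x : Tuple r N F, P ∈ points T Y →
        Frame x P ∧ OnX T x ∧ InU T x ∧ height x ≤ Y := by
      intro P
      by_cases hP : P ∈ points T Y
      · obtain ⟨x, hx⟩ := hP
        exact ⟨x, fun _ => hx⟩
      · exact ⟨fun _ _ => 0, fun h => absurd h hP⟩
    choose φ hφ using hex
    refine hC' Y hY (points T Y) φ (fun P hP => ?_) ?_
    · obtain ⟨q1, q2, q3, q4⟩ := hφ P hP
      exact ⟨q1.1, q2, q3, q4⟩
    · intro P hP P' hP' y hy hy'
      obtain ⟨q1, -⟩ := hφ P hP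
      obtain ⟨q2, -⟩ := hφ P' hP'
      rw [← (frame_of_eqf q1 hy).2, ← (frame_of_eqf q2 hy').2]
  · intro P x x' hx hx'
    exact ⟨⟨(hinv P x x' hx hx').1, (hinv P x' x hx' hx).1⟩,
      ⟨(hinv P x x' hx hx').2, (hinv P x' x hx' hx).2⟩,
      (L5helper6.GG.hgt_frame (frame_eqf hx hx')).symm⟩

end Pool.Agent.Results.MP_18ea5f_nt.LinearSectionsOfGrassmannians
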