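import Mathlib
import Pool.Agent.L5helper6.BF.Glue
import Pool.Agent.L5helper6.BF.Smb

/-!
The weak form of the conjecture of Manin over ALL number fields `F`, for all big and nef line
bundles, for linear sections `X` of codimension `k` of products (with at least two factors) of `p`
projective spaces and `q` Grassmannians of planes in the Segre-Plücker embedding.

* `Slot p q`: the index set of the vectors: one vector `a` for each of the projective spaces, and
  two vectors `fst b`, `snd b` (a basis of a plane) for each of the Grassmannians.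
* `Tuple N M K`: families `x` of vectors over `K`; `x a` has `N a` coordinates and `x (fst b)`,
  `x (snd b)` have `M b` coordinates.
* `Coeffs N M K`: arrays of coefficients `t`; `form t x` is the value of the corresponding
  multilinear form and `grad t v x` the vector of its partial derivatives with respect to the
  coordinates of `x v`. `Alternating t`: the form is alternating in the two vectors of each plane.
* `Point F N M`: families of rational points of the projective spaces and of subspaces of the
  spaces `F ^ (M b)`. `Frame x P`: the vector `x a` represents the point `P.1 a` and `x (fst b)`,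
  `x (snd b)` are a basis of the plane `P.2 b`.
* `OnX T x`: the `k` forms vanish at `x`; this defines `X`.
* `InU T x`: for all `a` the `k` vectors `grad (T i) a x` are linearly independent and for all `b`
  the `2 k` vectors `grad (T i) (fst b) x`, `grad (T i) (snd b) x` are linearly independent; this
  defines an open subset `U` of `X`.
* `height l x`: the product of the heights of the points and planes (relative heights over `F`; the
  height of a plane is the height of its Plücker coordinates `plucker`) to the powers `l`.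
* `RankCondition T`: for any two different vectors `u`, `v` every nontrivial complex linear
  combination of the `k` forms is a bilinear form in `x u`, `x v` of rank `> k (p + 2 q)`, whatever
  complex vectors are inserted for the other variables, if these are not zero and independent for
  every plane. (For all embeddings of `F`.)
* `Smooth T`: the Jacobian criterion at all complex points of `X`.
* `fujita N M k l`: the largest of the numbers `(N a - k) / l a` and `(M b - k) / l b`: this is the
  Fujita invariant `a(X, L)`, because `-K = ∑ (N a - k) H_a + ∑ (M b - k) H_b`.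

The theorem: assume that `T` satisfies the rank condition, or that `X` is ANY smooth complete
intersection of `k` divisors of type `(1,1)` in the product of two projective spaces of dimensions
`≥ 2 k` one of which has dimension `≥ 3 k - 1`. Then `U` contains a rational point, and for all real
`l > 0` and all `ε > 0` the number of the rational points of `U` of height `≤ Y` is finite and
`O(Y ^ (a(X, L) + ε))`. Moreover the conditions do not depend on the choice of the frame.
-/

namespace Pool.Agent.Results.MP_18ea5f_nt.LinearSectionsOfProducts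

open Function

variable {p q k : ℕ}

/-- The index set of the vectors. -/
abbrev Slot (p q : ℕ) : Type := Fin p ⊕ (Fin q ⊕ Fin q)

/-- The first vector of a plane. -/
abbrev fst (b : Fin q) : Slot p q := Sum.inr (Sum.inl b)

/-- The second vector of a plane. -/
abbrev snd (b : Fin q) : Slot p q := Sum.inr (Sum.inr b)

/-- The number of the coordinates of the vectors. -/
abbrev len (N : Fin p → ℕ) (M : Fin q → ℕ) : Slot p q → ℕ := Pool.Agent.L5helper6.BF.dm N M

variable {N : Fin p → ℕ} {M : Fin q → ℕ}

/-- Families of vectors. -/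
abbrev Tuple (N : Fin p → ℕ) (M : Fin q → ℕ) (K : Type*) : Type _ :=
  ∀ v : Slot p q, Fin (len N M v) → K

/-- Arrays of coefficients. -/
abbrev Coeffs (N : Fin p → ℕ) (M : Fin q → ℕ) (K : Type*) : Type _ :=
  (∀ v : Slot p q, Fin (len N M v)) → K

/-- The value of the form with the coefficients `t`. -/
noncomputable def form {K : Type*} [CommRing K] (t : Coeffs N M K) (x : Tuple N M K) : K :=
  ∑ j, t j * ∏ v, x v (j v)

/-- The partial derivatives with respect to the coordinates of `x v`. -/
noncomputable def grad {K : Type*} [CommRing K] (t : Coeffs N M K) (v : Slot p q)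
    (x : Tuple N M K) : Fin (len N M v) → K :=
  fun l => form t (update x v (Pi.single l 1))

/-- Exchange of the two indices which belong to a plane. -/
noncomputable def swap (b : Fin q) (j : ∀ v : Slot p q, Fin (len N M v)) :
    ∀ v : Slot p q, Fin (len N M v) :=
  update (update j (fst b) (j (snd b))) (snd b) (j (fst b))

/-- The form is alternating in the two vectors of each plane. -/
def Alternating {K : Type*} [CommRing K] (t : Coeffs N M K) : Prop := ∀ b j, t (swap b j) = -t j

/-- The equations of `X`. -/
def OnX {K : Type*} [CommRing K] (T : Fin k → Coeffs N M K) (x : Tuple N M K) : Prop :=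
  ∀ i, form (T i) x = 0

/-- The open subset `U`. -/
def InU {K : Type*} [Field K] (T : Fin k → Coeffs N M K) (x : Tuple N M K) : Prop :=
  (∀ a : Fin p, LinearIndependent K fun i => grad (T i) (Sum.inl a) x) ∧
  ∀ b : Fin q, LinearIndependent K
    (Sum.elim (fun i => (grad (T i) (fst b) x : Fin (M b) → K))
      fun i => (grad (T i) (snd b) x : Fin (M b) → K))

/-- Nonzero vectors and independent pairs, apart from the vectors `u` and `v`. -/
def Admissible {K : Type*} [Field K] (u v : Slot p q) (x : Tuple N M K) : Prop :=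
  (∀ t, t ≠ u → t ≠ v → x t ≠ 0) ∧
  ∀ b : Fin q, fst b ≠ u → fst b ≠ v → snd b ≠ u → snd b ≠ v →
    LinearIndependent K ![(x (fst b) : Fin (M b) → K), x (snd b)]

/-- The rank condition. -/
structure RankCondition {F : Type} [Field F] (T : Fin k → Coeffs N M F) : Prop where
  pos : ∀ a, 1 ≤ N a
  two : ∀ b, 2 ≤ M b
  rank : ∀ (σ : F →+* ℂ) (u v : Slot p q), u ≠ v → ∀ x : Tuple N M ℂ, Admissible u v x →
    ∀ s : Fin k → ℂ, s ≠ 0 → k * (p + 2 * q) <
      (Matrix.of fun (l : Fin (len N M u)) (l' : Fin (len N M v)) => ∑ i, s i *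
        form (fun j => σ (T i j)) (update (update x v (Pi.single l' 1)) u (Pi.single l 1))).rank

/-- The Jacobian criterion at all complex points of `X`. -/
def Smooth {F : Type} [Field F] (T : Fin k → Coeffs N M F) : Prop :=
  ∀ (σ : F →+* ℂ) (x : Tuple N M ℂ), (∀ a : Fin p, x (Sum.inl a) ≠ 0) →
    (∀ b : Fin q, LinearIndependent ℂ ![(x (fst b) : Fin (M b) → ℂ), x (snd b)]) →
    OnX (fun i j => σ (T i j)) x → ∀ s : Fin k → ℂ, s ≠ 0 →
    ∃ v, ∑ i, s i • grad (fun j => σ (T i j)) v x ≠ 0

/-- Families of points and of subspaces. -/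
abbrev Point (F : Type) [Field F] (N : Fin p → ℕ) (M : Fin q → ℕ) : Type :=
  (∀ a : Fin p, Projectivization F (Fin (N a) → F)) × ∀ b : Fin q, Submodule F (Fin (M b) → F)

/-- `x` consists of coordinates of the points and of bases of the planes. -/
def Frame {F : Type} [Field F] (x : Tuple N M F) (P : Point F N M) : Prop :=
  (∀ a : Fin p, ∃ h : (x (Sum.inl a) : Fin (N a) → F) ≠ 0,
    Projectivization.mk F (x (Sum.inl a) : Fin (N a) → F) h = P.1 a) ∧
  ∀ b : Fin q, LinearIndependent F ![(x (fst b) : Fin (M b) → F), x (snd b)] ∧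
    Submodule.span F {(x (fst b) : Fin (M b) → F), x (snd b)} = P.2 b

/-- The Plücker coordinates of the plane spanned by `a` and `b`. -/
def plucker {F : Type} [Field F] {n : ℕ} (a b : Fin n → F) : Fin n × Fin n → F :=
  fun i => a i.1 * b i.2 - a i.2 * b i.1

/-- The height. -/
noncomputable def height {F : Type} [Field F] [NumberField F] (l : Fin p ⊕ Fin q → ℝ)
    (x : Tuple N M F) : ℝ :=
  (∏ a : Fin p, Height.mulHeight (x (Sum.inl a) : Fin (N a) → F) ^ l (Sum.inl a)) *
  ∏ b : Fin q, Height.mulHeight (plucker (x (fst b) : Fin (M b) → F) (x (snd b))) ^ l (Sum.inr b)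

/-- The rational points of `U` of height at most `Y`. -/
def points {F : Type} [Field F] [NumberField F] (T : Fin k → Coeffs N M F)
    (l : Fin p ⊕ Fin q → ℝ) (Y : ℝ) : Set (Point F N M) :=
  {P | ∃ x, Frame x P ∧ OnX T x ∧ InU T x ∧ height l x ≤ Y}

/-- The Fujita invariant. -/
noncomputable def fujita (N : Fin p → ℕ) (M : Fin q → ℕ) (k : ℕ) (l : Fin p ⊕ Fin q → ℝ) : ℝ :=
  ⨆ j : Fin p ⊕ Fin q, (((Sum.elim N M j : ℕ) : ℝ) - k) / l j

open Pool.Agent.L5helper6 in
theorem frame_eqf {F : Type} [Field F] {x x' : Tuple N M F} {P : Point F N M} (h : Frame x P)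
    (h' : Frame x' P) : BF.Eqf x x' := by
  constructor
  · intro a
    obtain ⟨h1, h2⟩ := h.1 a
    obtain ⟨h3, h4⟩ := h'.1 a
    rw [← h4, Projectivization.mk_eq_mk_iff'] at h2
    obtain ⟨c, hc⟩ := h2
    have hc0 : c ≠ 0 := by
      rintro rfl
      rw [zero_smul] at hc
      exact h1 hc.symm
    refine ⟨c⁻¹, inv_ne_zero hc0, ?_⟩
    rw [← hc, smul_smul, inv_mul_cancel₀ hc0, one_smul]
  · intro b
    obtain ⟨h1, h2⟩ := h.2 b
    obtain ⟨h3, h4⟩ := h'.2 b
    have h5 : (x' (fst b) : Fin (M b) → F) ∈
        Submodule.span F {(x (fst b) : Fin (M b) → F), x (snd b)} := by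
      rw [h2, ← h4]
      exact Submodule.subset_span (Set.mem_insert _ _)
    have h6 : (x' (snd b) : Fin (M b) → F) ∈
        Submodule.span F {(x (fst b) : Fin (M b) → F), x (snd b)} := by
      rw [h2, ← h4]
      exact Submodule.subset_span (Set.mem_insert_of_mem _ rfl)
    obtain ⟨α, β, h7⟩ := Submodule.mem_span_pair.1 h5
    obtain ⟨γ, δ, h8⟩ := Submodule.mem_span_pair.1 h6
    refine ⟨α, β, γ, δ, ?_, h7.symm, h8.symm⟩
    intro hD
    rw [LinearIndependent.pair_iff] at h3
    have h9 := h3 δ (-β) (by
      rw [← h7, ← h8]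
      have : δ • (α • (x (fst b) : Fin (M b) → F) + β • (x (snd b) : Fin (M b) → F)) +
          -β • (γ • (x (fst b) : Fin (M b) → F) + δ • (x (snd b) : Fin (M b) → F)) =
          (α * δ - β * γ) • (x (fst b) : Fin (M b) → F) := by module
      rw [this, hD, zero_smul])
    have h10 := h3 γ (-α) (by
      rw [← h7, ← h8]
      have : γ • (α • (x (fst b) : Fin (M b) → F) + β • (x (snd b) : Fin (M b) → F)) +
          -α • (γ • (x (fst b) : Fin (M b) → F) + δ • (x (snd b) : Fin (M b) → F)) =
          -(α * δ - β * γ) • (x (snd b) : Fin (M b) → F) := by module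
      rw [this, hD, neg_zero, zero_smul])
    have e1 : δ = 0 := h9.1
    have e2 : β = 0 := neg_eq_zero.1 h9.2
    have e3 : γ = 0 := h10.1
    have e4 : α = 0 := neg_eq_zero.1 h10.2
    have h11 := h3 1 0 (by
      rw [← h7, e4, e2]
      simp)
    exact one_ne_zero h11.1

section

open Pool.Agent.L5helper6

theorem frame_of_eqf {F : Type} [Field F] {x y : Tuple N M F} {P : Point F N M}
    (h : Frame x P) (e : BF.Eqf x y) : Frame y P := by
  constructor
  · intro a
    obtain ⟨h1, h2⟩ := h.1 a
    obtain ⟨c, hc, h3⟩ := e.1 a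
    have h4 : (y (Sum.inl a) : Fin (N a) → F) ≠ 0 := by
      rw [h3]
      exact smul_ne_zero hc h1
    refine ⟨h4, ?_⟩
    rw [← h2, Projectivization.mk_eq_mk_iff']
    exact ⟨c, h3.symm⟩
  · intro b
    obtain ⟨h1, h2⟩ := h.2 b
    obtain ⟨α, β, γ, δ, hD, h3, h4⟩ := e.2 b
    rw [LinearIndependent.pair_iff] at h1 ⊢
    constructor
    · intro s t hst
      rw [h3, h4] at hst
      have h5 := h1 (s * α + t * γ) (s * β + t * δ) (by
        rw [← hst]
        module)
      constructor
      · have : (α * δ - β * γ) * s = 0 := by linear_combination δ * h5.1 - γ * h5.2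
        exact (mul_eq_zero.1 this).resolve_left hD
      · have : (α * δ - β * γ) * t = 0 := by linear_combination α * h5.2 - β * h5.1
        exact (mul_eq_zero.1 this).resolve_left hD
    · rw [← h2]
      apply le_antisymm
      · rw [Submodule.span_le]
        rintro w (rfl | hw)
        · show (y (fst b) : Fin (M b) → F) ∈ _
          rw [h3]
          exact Submodule.mem_span_pair.2 ⟨α, β, rfl⟩
        · rw [Set.mem_singleton_iff] at hw
          subst hw
          show (y (snd b) : Fin (M b) → F) ∈ _
          rw [h4]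
          exact Submodule.mem_span_pair.2 ⟨γ, δ, rfl⟩
      · rw [Submodule.span_le]
        rintro w (rfl | hw)
        · show (x (fst b) : Fin (M b) → F) ∈ _
          refine Submodule.mem_span_pair.2 ⟨(α * δ - β * γ)⁻¹ * δ, -((α * δ - β * γ)⁻¹ * β), ?_⟩
          rw [h3, h4]
          have e1 : ((α * δ - β * γ)⁻¹ * δ) • (α • (x (fst b) : Fin (M b) → F) +
              β • (x (snd b) : Fin (M b) → F)) + (-((α * δ - β * γ)⁻¹ * β)) •
              (γ • (x (fst b) : Fin (M b) → F) + δ • (x (snd b) : Fin (M b) → F)) =
              ((α * δ - β * γ)⁻¹ * (α * δ - β * γ)) • (x (fst b) : Fin (M b) → F) := by module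
          rw [e1, inv_mul_cancel₀ hD, one_smul]
        · rw [Set.mem_singleton_iff] at hw
          subst hw
          show (x (snd b) : Fin (M b) → F) ∈ _
          refine Submodule.mem_span_pair.2 ⟨-((α * δ - β * γ)⁻¹ * γ), (α * δ - β * γ)⁻¹ * α, ?_⟩
          rw [h3, h4]
          have e1 : (-((α * δ - β * γ)⁻¹ * γ)) • (α • (x (fst b) : Fin (M b) → F) +
              β • (x (snd b) : Fin (M b) → F)) + ((α * δ - β * γ)⁻¹ * α) •
              (γ • (x (fst b) : Fin (M b) → F) + δ • (x (snd b) : Fin (M b) → F)) =
              ((α * δ - β * γ)⁻¹ * (α * δ - β * γ)) • (x (snd b) : Fin (M b) → F) := by module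
          rw [e1, inv_mul_cancel₀ hD, one_smul]

theorem point_unique {F : Type} [Field F] {x : Tuple N M F} {P P' : Point F N M}
    (h : Frame x P) (h' : Frame x P') : P = P' := by
  apply Prod.ext
  · funext a
    obtain ⟨_, h1⟩ := h.1 a
    obtain ⟨_, h2⟩ := h'.1 a
    rw [← h1, ← h2]
  · funext b
    rw [← (h.2 b).2, ← (h'.2 b).2]

theorem le_fujita (N : Fin p → ℕ) (M : Fin q → ℕ) (k : ℕ) (l : Fin p ⊕ Fin q → ℝ)
    (hl : ∀ j, 0 < l j) (j : Fin p ⊕ Fin q) :
    ((Sum.elim N M j : ℕ) : ℝ) - k ≤ fujita N M k l * l j := by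
  have h := le_ciSup (f := fun j : Fin p ⊕ Fin q => (((Sum.elim N M j : ℕ) : ℝ) - k) / l j)
    (Set.finite_range _).bddAbove j
  have h1 : (((Sum.elim N M j : ℕ) : ℝ) - k) / l j ≤ fujita N M k l := h
  rwa [div_le_iff₀ (hl j)] at h1

theorem smooth_rc {F : Type} [Field F] {N : Fin 2 → ℕ} {M : Fin 0 → ℕ}
    (T : Fin k → Coeffs N M F) (h1 : ∀ a, 2 * k + 1 ≤ N a) (h2 : ∃ a, 3 * k ≤ N a)
    (hs : Smooth T) : RankCondition T := by
  refine ⟨fun a => by have := h1 a; omega, fun b => b.elim0, ?_⟩
  intro σ u v huv x _ s hs0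
  have hall : ∀ t : Slot 2 0, t = u ∨ t = v := by
    rcases u with a | b | b
    · rcases v with a' | b' | b'
      · rintro (c | b | b)
        · have hne : a ≠ a' := fun h => huv (by rw [h])
          have : c = a ∨ c = a' := by omega
          rcases this with h | h
          · left; rw [h]
          · right; rw [h]
        · exact b.elim0
        · exact b.elim0
      · exact b'.elim0
      · exact b'.elim0
    · exact b.elim0
    · exact b.elim0
  have hlen : ∀ t : Slot 2 0, 2 * k + 1 ≤ len N M t := by
    rintro (a | b | b)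
    · exact h1 a
    · exact b.elim0
    · exact b.elim0
  have hlen' : 3 * k ≤ len N M u ∨ 3 * k ≤ len N M v := by
    obtain ⟨a, ha⟩ := h2
    rcases hall (Sum.inl a) with h | h
    · left
      rw [← h]
      exact ha
    · right
      rw [← h]
      exact ha
  set Q : Fin k → Matrix (Fin (len N M u)) (Fin (len N M v)) ℂ := fun i =>
    Matrix.of fun l l' => form (fun j => σ (T i j))
      (update (update x v (Pi.single l' 1)) u (Pi.single l 1)) with hQ
  -- the family given by two vectors
  have hbil : ∀ (i : Fin k) (a : Fin (len N M u) → ℂ) (b : Fin (len N M v) → ℂ),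
      form (fun j => σ (T i j)) (update (update x v b) u a) = a ⬝ᵥ (Q i).mulVec b := by
    intro i a b
    have e1 := BF.ev_update (fun j => σ (T i j)) u (update x v b) a
    have e2 : ∀ l, BF.ev (fun j => σ (T i j)) (update (update x v b) u (Pi.single l 1)) =
        ∑ l', Q i l l' * b l' := fun l => BF.der_mt (fun i j => σ (T i j)) huv x b i l
    have e3 : form (fun j => σ (T i j)) (update (update x v b) u a) =
        ∑ l, BF.ev (fun j => σ (T i j)) (update (update x v b) u (Pi.single l 1)) * a l := e1
    rw [e3]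
    unfold dotProduct Matrix.mulVec dotProduct
    refine Finset.sum_congr rfl fun l _ => ?_
    rw [e2, mul_comm]
  have key := BF.smooth_rank Q (fun a b ha hb h0 s hs1 h3 => by
    have h4 := hs σ (update (update x v b) u a) (fun c => by
        rcases hall (Sum.inl c) with h | h
        · rw [h, update_self]
          exact ha
        · rw [h, update_of_ne huv.symm, update_self]
          exact hb) (fun b => b.elim0) (fun i => (hbil i a b).trans (h0 i)) s hs1
    obtain ⟨t, ht⟩ := h4
    apply ht
    rcases hall t with h | h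
    · subst h
      funext l
      rw [Finset.sum_apply]
      have h5 := congrFun h3.1 l
      rw [Matrix.sum_mulVec, Finset.sum_apply] at h5
      rw [← h5]
      refine Finset.sum_congr rfl fun i _ => ?_
      rw [Matrix.smul_mulVec, Pi.smul_apply, Pi.smul_apply]
      congr 1
      show form (fun j => σ (T i j)) (update (update (update x v b) t a) t (Pi.single l 1)) = _
      rw [update_idem, hbil, single_one_dotProduct]
    · subst h
      funext l
      rw [Finset.sum_apply]
      have h5 := congrFun h3.2 l
      rw [Matrix.vecMul_sum, Finset.sum_apply] at h5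
      rw [← h5]
      refine Finset.sum_congr rfl fun i _ => ?_
      rw [Matrix.vecMul_smul, Pi.smul_apply, Pi.smul_apply]
      congr 1
      show form (fun j => σ (T i j)) (update (update (update x t b) u a) t (Pi.single l 1)) = _
      rw [update_comm huv, update_idem, hbil, Matrix.mulVec_single_one]
      rfl) (hlen u) (hlen v) hlen' s hs0
  refine lt_of_lt_of_le (by omega) (key.trans (le_of_eq ?_))
  congr 1
  ext l l'
  rw [Matrix.sum_apply]
  rfl

theorem rcf {F : Type} [Field F] [NumberField F] (T : Fin k → Coeffs N M F)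
    (h : RankCondition T) : BF.RCF T (k * Fintype.card (Slot p q) + 1) := by
  intro σ u v huv x hx s hs
  have h1 := h.rank σ u v huv x hx s hs
  have e : k * Fintype.card (Slot p q) + 1 ≤ (Matrix.of fun (l : Fin (len N M u))
      (l' : Fin (len N M v)) => ∑ i, s i * form (fun j => σ (T i j))
        (update (update x v (Pi.single l' 1)) u (Pi.single l 1))).rank := by
    have e1 : Fintype.card (Slot p q) = p + 2 * q := by
      simp [Slot]
      omega
    rw [e1]
    exact h1
  refine e.trans (le_of_eq ?_)
  congr 1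
  ext l l'
  rw [Matrix.sum_apply]
  rfl

end

theorem result {F : Type} [Field F] [NumberField F] {p q k : ℕ} (hpq : 2 ≤ p + q) (hk : 1 ≤ k)
    (N : Fin p → ℕ) (M : Fin q → ℕ) (T : Fin k → Coeffs N M F) (hT : ∀ i, Alternating (T i))
    (h : RankCondition T ∨
      (p = 2 ∧ q = 0 ∧ (∀ a, 2 * k + 1 ≤ N a) ∧ (∃ a, 3 * k ≤ N a) ∧ Smooth T)) :
    (∃ (P : Point F N M) (x : Tuple N M F), Frame x P ∧ OnX T x ∧ InU T x) ∧
    (∀ l : Fin p ⊕ Fin q → ℝ, (∀ j, 0 < l j) → ∀ ε : ℝ, 0 < ε → ∃ C : ℝ, ∀ Y : ℝ, 1 ≤ Y →
      (points T l Y).Finite ∧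
      ((points T l Y).ncard : ℝ) ≤ C * Y ^ (fujita N M k l + ε)) ∧
    ∀ (P : Point F N M) (x x' : Tuple N M F), Frame x P → Frame x' P →
      (OnX T x ↔ OnX T x') ∧ (InU T x ↔ InU T x') ∧ ∀ l, height l x = height l x' := by
  have hRC : RankCondition T := by
    rcases h with h | ⟨rfl, rfl, h1, h2, h3⟩
    · exact h
    · exact smooth_rc T h1 h2 h3
  have hnt : Nontrivial (Fin p ⊕ Fin q) := by
    rw [← Fintype.one_lt_card_iff_nontrivial, Fintype.card_sum, Fintype.card_fin,
      Fintype.card_fin]
    omega
  have hinv : ∀ (P : Point F N M) (x x' : Tuple N M F), Frame x P → Frame x' P →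
      (OnX T x → OnX T x') ∧ (InU T x → InU T x') := fun P x x' hx hx' =>
    ⟨fun h1 => L5helper6.BF.Inc_frame hT (frame_eqf hx hx') h1,
      fun h1 => L5helper6.BF.GG_frame hT (frame_eqf hx hx') h1⟩
  obtain ⟨⟨x, h1, h2, h3, h4⟩, hcount⟩ := L5helper6.BF.main hk hRC.pos hRC.two T hT (rcf T hRC)
  refine ⟨⟨⟨fun a => Projectivization.mk F _ (h3 (Sum.inl a)), fun b => _⟩, x,
    ⟨fun a => ⟨h3 (Sum.inl a), rfl⟩, fun b => ⟨h4 b, rfl⟩⟩, h1, h2⟩, ?_, ?_⟩
  · intro l hl ε hε
    have hdim : ∀ v : Slot p q, k ≤ len N M v := by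
      intro v
      have h5 := L5helper6.BF.dims hk hRC.pos hRC.two (rcf T hRC) v
      have h6 : 1 ≤ Fintype.card (Slot p q) := Fintype.card_pos_iff.2 ⟨v⟩
      have h7 := Nat.mul_le_mul_left k h6
      have h8 : k * Fintype.card (Slot p q) + 1 ≤ len N M v := h5
      omega
    have hα : ∀ v : Slot p q, ((len N M v - k : ℕ) : ℝ) ≤
        fujita N M k l * L5helper6.BF.wl l v := by
      intro v
      rw [Nat.cast_sub (hdim v)]
      rcases v with a | b | b
      · exact le_fujita N M k l hl (Sum.inl a)
      · exact le_fujita N M k l hl (Sum.inr b)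
      · exact le_fujita N M k l hl (Sum.inr b)
    have hα0 : 0 ≤ fujita N M k l := by
      obtain ⟨j⟩ : Nonempty (Fin p ⊕ Fin q) := inferInstance
      have h5 := hα (L5helper6.BF.slot j)
      have h6 : 0 < L5helper6.BF.wl l (L5helper6.BF.slot j) := hl _
      by_contra hcon
      push Not at hcon
      have h7 : (0 : ℝ) ≤ ((len N M (L5helper6.BF.slot j) - k : ℕ) : ℝ) := Nat.cast_nonneg _
      nlinarith
    obtain ⟨C, hC, hC'⟩ := hcount l hl _ hα0 hα ε hε
    refine ⟨C, fun Y hY => ?_⟩
    have hex : ∀ P : Point F N M, ∃ x : Tuple N M F, P ∈ points T l Y →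
        Frame x P ∧ OnX T x ∧ InU T x ∧ height l x ≤ Y := by
      intro P
      by_cases hP : P ∈ points T l Y
      · obtain ⟨x, hx⟩ := hP
        exact ⟨x, fun _ => hx⟩
      · exact ⟨fun _ _ => 0, fun h => absurd h hP⟩
    choose φ hφ using hex
    refine hC' Y hY (points T l Y) φ (fun P hP => ?_) ?_
    · obtain ⟨q1, q2, q3, q4⟩ := hφ P hP
      exact ⟨fun a => (q1.1 a).1, fun b => (q1.2 b).1, q2, q3, q4⟩
    · intro P hP P' hP' y hy hy'
      obtain ⟨q1, -⟩ := hφ P hP
      obtain ⟨q2, -⟩ := hφ P' hP'
      exact point_unique (frame_of_eqf q1 hy) (frame_of_eqf q2 hy')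
  · intro P x x' hx hx'
    refine ⟨⟨(hinv P x x' hx hx').1, (hinv P x' x hx' hx).1⟩,
      ⟨(hinv P x x' hx hx').2, (hinv P x' x hx' hx).2⟩, fun l => ?_⟩
    exact (L5helper6.BF.htf_frame l (frame_eqf hx hx')).symm

end Pool.Agent.Results.MP_18ea5f_nt.LinearSectionsOfProducts
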