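import Mathlib
import Pool.Agent.L5helper4.NT.Main

/-!
The weak form of the conjecture of Manin over ALL number fields `F`, for all big and nef line
bundles of the ambient space, for all varieties `X` which are given by a tower of norm equations

  `∏ N_{E_i/F}(z_i) = G_k(y, z)`   (`k = 1, ..., r`; the product is over the `i` with `c i = k`)

in the Cox coordinates of any smooth projective split toric variety `P`. Here the `E_i` are
arbitrary finite extensions of `F`, the `G_k` are arbitrary homogeneous polynomials, and `G_k`
contains, besides the coordinates `y`, only blocks `z_j` which come before the blocks of the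
equation `k`.

Examples: `N(z) = G(y)` in a projective space, `G` any form of degree `[E : F]`; generalised Châtelet
varieties `N(z) = f(x) u ^ 2` in all dimensions and over all toric bases (`E` quadratic,
`f = 0` smooth); quadric bundles `q(z) = ∑ f_ij(x) u_i u_j` over toric bases with a constant
nondegenerate quadratic form `q` in at least three variables (one diagonalises `q`; two of the
variables form the block, the others are among the `y`), in particular all blow-ups of smooth
quadrics in linear sections; towers of such varieties.

* `Coord n m`: the index set of the Cox coordinates: `y_1, ..., y_n` and for each `i` the `m i`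
  coordinates of the block `z_i`. `block x`: the block of a coordinate; the `y_j` are blocks with
  one coordinate.
* `deg`: the degrees of the blocks in `Pic P = ℤ ^ p`.
* `Sigma`: the system of the sets of blocks which belong to the fan of `P`: for `s ∈ Sigma` and any
  choice of one coordinate in each block in `s`, the rays of all the other coordinates span a maximal
  cone. `Complete deg Sigma`: the fan is complete (for each vector `t` of the space of all real
  functions on the blocks there is an `s` such that, modulo the functions `a ↦ μ · deg a`, `t` is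
  nonnegative and zero on `s`).
* `Free deg Sigma L`: for each `s` in `Sigma` the class `L` is a combination of the degrees of the
  blocks in `s` with coefficients in `ℕ`: the class is globally generated (nef). The basis
  of `Pic P` consists of such classes.
* `Big deg L`: a multiple of `L` is a combination of all the degrees with positive coefficients.
* `norm b i P`: the norm of the element of `E i` with the coordinates `z_i` in the basis `b i`.
* `OnX`: the equations; `InU`: all `y_j` and all `G_k(y, z)` are not zero; this defines the open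
  subset `U` of `X`.
* `Earlier`: the condition on the variables of `G_k`; `Homogeneous`: `G_k` is homogeneous of the
  degree of the left hand side for the grading by `Pic P`.
* `points L T`: the `F`-rational points of `U` of height at most `T`, i.e. the classes of the
  solutions with coordinates in `F` modulo the action `act` of the torus `(F ^ *) ^ p`; the height is
  Mathlib's (relative) height of the vector of the values of all the monomials of degree `L`.
* `fujita deg L`: the infimum of the `t` such that `t L + K` is in the cone of effective classes,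
  which is generated by all the degrees. By the adjunction formula `-K` is the sum of the degrees
  of the `y_j`.

The theorem: for all `ε > 0` the number of the points of `U` of height at most `T` is finite and
`O(T ^ (fujita + ε))`.
-/

set_option autoImplicit false

namespace Pool.Agent.Results.MP_18ea5f_nt.NormTowers

open Finset Module

variable {n q p r : ℕ} {m : Fin q → ℕ}

/-- The index set of the Cox coordinates. -/
abbrev Coord (n : ℕ) {q : ℕ} (m : Fin q → ℕ) : Type := Fin n ⊕ (Σ i : Fin q, Fin (m i))

/-- The block of a coordinate. -/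
def block (x : Coord n m) : Fin n ⊕ Fin q := Sum.map id Sigma.fst x

/-- The fan is complete. -/
def Complete (deg : Fin n ⊕ Fin q → Fin p → ℤ) (Sigma : Set (Set (Fin n ⊕ Fin q))) : Prop :=
  ∀ t : Fin n ⊕ Fin q → ℝ, ∃ s ∈ Sigma, ∃ μ : Fin p → ℝ,
    ∀ a, ∑ j, μ j * deg a j ≤ t a ∧ (a ∈ s → ∑ j, μ j * deg a j = t a)

/-- Globally generated classes. -/
def Free (deg : Fin n ⊕ Fin q → Fin p → ℤ) (Sigma : Set (Set (Fin n ⊕ Fin q)))
    (L : Fin p → ℤ) : Prop :=
  ∀ s ∈ Sigma, ∃ l : Fin n ⊕ Fin q → ℕ, (∀ a, a ∉ s → l a = 0) ∧
    ∀ j, ∑ a, (l a : ℤ) * deg a j = L j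

/-- Big classes. -/
def Big (deg : Fin n ⊕ Fin q → Fin p → ℤ) (L : Fin p → ℤ) : Prop :=
  ∃ (k : ℕ) (d : Fin n ⊕ Fin q → ℕ), (∀ a, 1 ≤ d a) ∧
    ∀ j, (k : ℤ) * L j = ∑ a, (d a : ℤ) * deg a j

/-- The infimum of the real numbers `t` such that `t L + K` is in the effective cone. -/
noncomputable def fujita (deg : Fin n ⊕ Fin q → Fin p → ℤ) (L : Fin p → ℤ) : ℝ :=
  sInf {t : ℝ | ∃ d : Fin n ⊕ Fin q → ℝ, (∀ a, 0 ≤ d a) ∧
    ∀ j, t * L j = ∑ i, (deg (Sum.inl i) j : ℝ) + ∑ a, d a * deg a j}

section

variable {F : Type} [Field F] [NumberField F] {E : Fin q → Type} [∀ i, Field (E i)]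
  [∀ i, NumberField (E i)] [∀ i, Algebra F (E i)]

/-- The norm of the element with the coordinates in the block `i`. -/
noncomputable def norm (b : ∀ i, Basis (Fin (m i)) F (E i)) (i : Fin q) (P : Coord n m → F) : F :=
  Algebra.norm F (∑ k, P (Sum.inr ⟨i, k⟩) • b i k)

/-- The equations of `X`. -/
def OnX (b : ∀ i, Basis (Fin (m i)) F (E i)) (c : Fin q → Fin r)
    (G : Fin r → MvPolynomial (Coord n m) F) (P : Coord n m → F) : Prop :=
  ∀ k, ∏ i with c i = k, norm b i P = MvPolynomial.eval P (G k)

/-- The open subset `U`. -/
def InU (G : Fin r → MvPolynomial (Coord n m) F) (P : Coord n m → F) : Prop :=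
  (∀ i, P (Sum.inl i) ≠ 0) ∧ ∀ k, MvPolynomial.eval P (G k) ≠ 0

/-- `G k` contains only coordinates `y` and coordinates of blocks which come before the blocks of the
equation `k`. -/
def Earlier (c : Fin q → Fin r) (G : Fin r → MvPolynomial (Coord n m) F) : Prop :=
  ∀ k, ∀ x ∈ (G k).vars, ∀ (j : Fin q) (l : Fin (m j)), x = Sum.inr ⟨j, l⟩ →
    ∀ i, c i = k → j < i

/-- The equations are homogeneous for the grading by the Picard group. -/
def Homogeneous (c : Fin q → Fin r) (G : Fin r → MvPolynomial (Coord n m) F)
    (deg : Fin n ⊕ Fin q → Fin p → ℤ) : Prop :=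
  ∀ k, ∀ e ∈ (G k).support, ∀ j,
    ∑ x, (e x : ℤ) * deg (block x) j = ∑ i with c i = k, (m i : ℤ) * deg (Sum.inr i) j

/-- The action of the torus. -/
def act (deg : Fin n ⊕ Fin q → Fin p → ℤ) (l : Fin p → F) (P : Coord n m → F) : Coord n m → F :=
  fun x => (∏ j, l j ^ deg (block x) j) * P x

/-- The exponents of the monomials of degree `L`. -/
def Monomial (m : Fin q → ℕ) (deg : Fin n ⊕ Fin q → Fin p → ℤ) (L : Fin p → ℤ) : Type :=
  {e : Coord n m → ℕ // ∀ j, ∑ x, (e x : ℤ) * deg (block x) j = L j}

/-- The height for the class `L`. -/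
noncomputable def height (deg : Fin n ⊕ Fin q → Fin p → ℤ) (L : Fin p → ℤ)
    (P : Coord n m → F) : ℝ :=
  Height.mulHeight fun e : Monomial m deg L => ∏ x, P x ^ e.1 x

/-- The rational points of `U` of height at most `T`. -/
def points (b : ∀ i, Basis (Fin (m i)) F (E i)) (c : Fin q → Fin r)
    (G : Fin r → MvPolynomial (Coord n m) F) (deg : Fin n ⊕ Fin q → Fin p → ℤ)
    (L : Fin p → ℤ) (T : ℝ) : Set (Set (Coord n m → F)) :=
  {C | ∃ P, OnX b c G P ∧ InU G P ∧
    C = {Q | ∃ l : Fin p → F, (∀ j, l j ≠ 0) ∧ Q = act deg l P} ∧ height deg L P ≤ T}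

end

/-- **The weak Manin conjecture for towers of norm equations**, for all number fields. -/
theorem result {F : Type} [Field F] [NumberField F] {E : Fin q → Type} [∀ i, Field (E i)]
    [∀ i, NumberField (E i)] [∀ i, Algebra F (E i)] (hn : 0 < n)
    (b : ∀ i, Basis (Fin (m i)) F (E i)) (c : Fin q → Fin r)
    (G : Fin r → MvPolynomial (Coord n m) F) (deg : Fin n ⊕ Fin q → Fin p → ℤ)
    (Sigma : Set (Set (Fin n ⊕ Fin q))) (hfan : Complete deg Sigma)
    (hbasis : ∀ j, Free deg Sigma (Pi.single j 1)) (hG : Earlier c G)
    (hG' : Homogeneous c G deg) (L : Fin p → ℤ) (hL : Free deg Sigma L) (hbig : Big deg L)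
    (ε : ℝ) (hε : 0 < ε) :
    ∃ C : ℝ, ∀ T : ℝ, 1 ≤ T → (points b c G deg L T).Finite ∧
      ((points b c G deg L T).ncard : ℝ) ≤ C * T ^ (fujita deg L + ε) :=
  Pool.Agent.L5helper4.NT.main (F := F) (E := E) (b := b) (c := c) (G := G) (dg := deg) hn hfan
    hbasis hG hG' hL hbig hε

end Pool.Agent.Results.MP_18ea5f_nt.NormTowers
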