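import Mathlib
import Pool.Agent.L5helper6.SM.Glue

/-!
The weak form of the conjecture of Manin over ALL number fields `K`, for all big and nef line
bundles, for ALL smooth complete intersections `X` of multilinear hypersurfaces in products of any
number `m` of projective spaces of large dimension over `K`.

* `Tuple n R`: families `x` of vectors `x v` of length `n v`, `v = 1, ..., m`: the coordinates of
  the points of the product of the projective spaces of dimensions `n v - 1`.
* `System n k R`: `k` forms with coefficients in `R`; the `i`-th form is linear in each of the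
  vectors `x v` with `v` in the set `e i` and does not depend on the others; `T i` is the array of
  its coefficients and `form F i x` its value; `F.map σ` has the coefficients `σ (T i j)`.
* `OnX F x`: all forms vanish at `x`; this defines `X`.
* `grad F i x`: the gradient of the `i`-th form: all its partial derivatives (the form is linear in
  `x v` for `v` in `e i`, so its derivative with respect to the coordinate `l` of `x v` is its value
  at the unit vector; for the other `v` it is zero).
* `Smooth F`, for complex coefficients: the Jacobian criterion: at all complex points of `X` the `k`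
  gradients are linearly independent, i.e. `X` is a smooth complete intersection.
* `deg F v`: the number of the forms which depend on `x v`; the anticanonical class of `X` is
  `-K_X = ∑ (n v - deg F v) H_v`, with `H_v` the classes of the hyperplanes of the factors.
* `fujita F l`: the largest of the numbers `(n v - deg F v) / l v`: the Fujita invariant `a(X, L)`
  of `L = ∑ l_v H_v`, the smallest `t` such that `t L + K_X` is in the cone generated by the `H_v`.
* `Multihomogeneous w`: the polynomial `w` is homogeneous in the coordinates of each of the vectors.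
* `InU Ω P`: some polynomial of the set `Ω` does not vanish at `P`.

The theorem: let `K` be a number field, let every form depend on at least two vectors, let `X` be
smooth (seen in one complex embedding `σ` of `K`) and `n v ≥ (m - 1) ∑_i #(e i) + 2 deg F v - k` for
all `v`.  Then there is a set `Ω` of multihomogeneous polynomials with coefficients in `K` such that
the Zariski open subset `U` of `X` where not all members of `Ω` vanish contains a `K`-point, and for
all real numbers `l_v > 0` and `ε > 0` the number of the `K`-points of `U` with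
`∏ H(P_v) ^ l_v ≤ T` is `O(T ^ (a(X, L) + ε))`; `H` is the multiplicative height over `K`.
-/

namespace Pool.Agent.Results.MP_18ea5f_nt.SmoothMultilinearNumberFields

open Function NumberField

variable {m k : ℕ} {n : Fin m → ℕ}

/-- families of vectors of lengths `n v` -/
abbrev Tuple (n : Fin m → ℕ) (R : Type*) : Type _ := ∀ v, Fin (n v) → R

/-- `k` multilinear forms -/
structure System (n : Fin m → ℕ) (k : ℕ) (R : Type*) where
  /-- the set of the vectors which occur in the `i`-th form -/
  e : Fin k → Finset (Fin m)
  /-- the coefficients of the `i`-th form -/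
  T : ∀ i, (∀ v : e i, Fin (n v)) → R

/-- the forms with the coefficients `σ (T i j)` -/
def System.map {R S : Type*} (F : System n k R) (σ : R → S) : System n k S :=
  ⟨F.e, fun i j => σ (F.T i j)⟩

/-- the value of the `i`-th form -/
def form {R : Type*} [CommRing R] (F : System n k R) (i : Fin k) (x : Tuple n R) : R :=
  ∑ j : (∀ v : F.e i, Fin (n v)), F.T i j * ∏ v : F.e i, x v (j v)

/-- the equations of `X` -/
def OnX {R : Type*} [CommRing R] (F : System n k R) (x : Tuple n R) : Prop :=
  ∀ i, form F i x = 0

/-- the gradient of the `i`-th form -/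
def grad {R : Type*} [CommRing R] (F : System n k R) (i : Fin k) (x : Tuple n R) : Tuple n R :=
  fun v l => if v ∈ F.e i then form F i (update x v (Pi.single l 1)) else 0

/-- the Jacobian criterion at all complex points of `X` -/
def Smooth (F : System n k ℂ) : Prop :=
  ∀ x : Tuple n ℂ, (∀ v, x v ≠ 0) → OnX F x → LinearIndependent ℂ fun i => grad F i x

/-- the number of the forms which depend on `x v` -/
def deg {R : Type*} (F : System n k R) (v : Fin m) : ℕ :=
  (Finset.univ.filter fun i => v ∈ F.e i).card

/-- the Fujita invariant of `∑ l_v H_v` -/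
noncomputable def fujita {R : Type*} (F : System n k R) (l : Fin m → ℝ) : ℝ :=
  ⨆ v, ((n v - deg F v : ℕ) : ℝ) / l v

/-- homogeneous in the coordinates of each vector -/
def Multihomogeneous {R : Type*} [CommRing R] (w : MvPolynomial (Σ v, Fin (n v)) R) : Prop :=
  ∃ δ : Fin m → ℕ, ∀ β ∈ w.support, ∀ v, ∑ l, β ⟨v, l⟩ = δ v

/-- some polynomial of `Ω` does not vanish at the point `P` -/
def InU {K : Type} [Field K] (Ω : Set (MvPolynomial (Σ v, Fin (n v)) K))
    (P : ∀ v, Projectivization K (Fin (n v) → K)) : Prop :=
  ∃ w ∈ Ω, MvPolynomial.eval (fun q : (Σ v, Fin (n v)) => (P q.1).rep q.2) w ≠ 0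

theorem result {K : Type} [Field K] [NumberField K] (hk : 1 ≤ k) (F : System n k K)
    (h2 : ∀ i, 2 ≤ (F.e i).card) (σ : K →+* ℂ) (hF : Smooth (F.map σ))
    (hn : ∀ v, (m - 1) * ∑ i, (F.e i).card + 2 * deg F v ≤ n v + k) :
    ∃ Ω : Set (MvPolynomial (Σ v, Fin (n v)) K), (∀ w ∈ Ω, Multihomogeneous w) ∧
      (∃ P : ∀ v, Projectivization K (Fin (n v) → K), OnX F (fun v => (P v).rep) ∧ InU Ω P) ∧
      ∀ l : Fin m → ℝ, (∀ v, 0 < l v) → ∀ ε : ℝ, 0 < ε → ∃ C : ℝ, ∀ T : ℝ, 1 ≤ T →
        {P : ∀ v, Projectivization K (Fin (n v) → K) | OnX F (fun v => (P v).rep) ∧ InU Ω P ∧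
          ∏ v, (P v).mulHeight ^ l v ≤ T}.Finite ∧
        ({P : ∀ v, Projectivization K (Fin (n v) → K) | OnX F (fun v => (P v).rep) ∧ InU Ω P ∧
          ∏ v, (P v).mulHeight ^ l v ≤ T}.ncard : ℝ) ≤ C * T ^ (fujita F l + ε) := by
  classical
  set G : L5helper6.SM.Sy n k K := ⟨F.e, F.T⟩ with hG
  have hdeg : ∀ v, L5helper6.SM.dg G v = deg F v := fun v => Fintype.card_subtype _
  have hSm : L5helper6.SM.Sm (G.map σ) := by
    intro x hx hi s hs
    have h1 := hF x hx hi
    rw [Fintype.linearIndependent_iff] at h1
    funext i
    refine h1 s ?_ i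
    funext v l
    rw [Finset.sum_apply, Finset.sum_apply]
    have h3 := hs v l
    have h4 : ∑ i : {i : Fin k // v ∈ F.e i},
        s i * form (F.map σ) i.1 (update x v (Pi.single l 1)) = 0 := h3
    rw [Pi.zero_apply, Pi.zero_apply, ← h4,
      ← Finset.sum_subtype (Finset.univ.filter fun i => v ∈ F.e i) (by simp)
        (fun i => s i * form (F.map σ) i (update x v (Pi.single l 1))), Finset.sum_filter]
    refine Finset.sum_congr rfl fun i _ => ?_
    show s i * grad (F.map σ) i x v l = _
    have h5 : (F.map σ).e = F.e := rfl
    unfold grad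
    rw [h5]
    split_ifs
    · rfl
    · rw [mul_zero]
  obtain ⟨Ω, hΩ, ⟨P, hP1, hP2⟩, hcount⟩ := L5helper6.SM.main hk G h2 σ hSm fun v => by
    rw [hdeg v, Fintype.card_fin]
    exact hn v
  refine ⟨Ω, hΩ, ⟨P, hP1, hP2⟩, fun l hl ε hε => ?_⟩
  have hα : ∀ v, ((n v - deg F v : ℕ) : ℝ) ≤ fujita F l * l v := by
    intro v
    have h := le_ciSup (f := fun v => ((n v - deg F v : ℕ) : ℝ) / l v)
      (Set.finite_range _).bddAbove v
    have h1 : ((n v - deg F v : ℕ) : ℝ) / l v ≤ fujita F l := h
    rwa [div_le_iff₀ (hl v)] at h1
  have hα0 : 0 ≤ fujita F l := Real.iSup_nonneg fun v => div_nonneg (Nat.cast_nonneg _) (hl v).le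
  obtain ⟨C, -, hC⟩ := hcount l hl (fujita F l) hα0 (fun v => by rw [hdeg v]; exact hα v) ε hε
  exact ⟨C, hC⟩

end Pool.Agent.Results.MP_18ea5f_nt.SmoothMultilinearNumberFields
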